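import Pool.Agent.W2helper16.RW.Stm

/-!
Project RW, piece DEG3: Carmichael numbers with three prime factors in `[M, 2M)`.
-/

set_option autoImplicit false

namespace Pool.Agent.W2helper60.RW

open Pool.Agent.W2helper16.RW

theorem core {M g a b c : ℕ} (hM : 4 ≤ M) (hg : 0 < g) (ha : 0 < a) (hb : 0 < b) (hc : 0 < c)
    (hac : Nat.Coprime a c)
    (h1 : g * a ∣ (g * a + 1) * (g * b + 1) * (g * c + 1) - 1)
    (h2 : g * b ∣ (g * a + 1) * (g * b + 1) * (g * c + 1) - 1)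
    (h3 : g * c ∣ (g * a + 1) * (g * b + 1) * (g * c + 1) - 1)
    (hpa : M ≤ g * a + 1) (hpb : M ≤ g * b + 1) (hpc : M ≤ g * c + 1)
    (hlt : g * a + 1 < 2 * M) : a ≤ 6 * (Nat.sqrt M + 1) := by
  obtain ⟨X, hX⟩ : ∃ X, X = g * (a * b + b * c + c * a) + (a + b + c) := ⟨_, rfl⟩
  have hY : (g * a + 1) * (g * b + 1) * (g * c + 1) - 1 = g * (g ^ 2 * (a * b * c) + X) := by
    have : (g * a + 1) * (g * b + 1) * (g * c + 1) = g * (g ^ 2 * (a * b * c) + X) + 1 := by
      rw [hX]; ring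
    omega
  rw [hY] at h1 h2 h3
  have h1' : a ∣ X := by
    have h := Nat.dvd_of_mul_dvd_mul_left hg h1
    exact (Nat.dvd_add_right ⟨g ^ 2 * (b * c), by ring⟩).1 h
  have h2' : b ∣ X := by
    have h := Nat.dvd_of_mul_dvd_mul_left hg h2
    exact (Nat.dvd_add_right ⟨g ^ 2 * (a * c), by ring⟩).1 h
  have h3' : c ∣ X := by
    have h := Nat.dvd_of_mul_dvd_mul_left hg h3
    exact (Nat.dvd_add_right ⟨g ^ 2 * (a * b), by ring⟩).1 h
  have hab : Nat.Coprime a b := by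
    obtain ⟨d, hd⟩ : ∃ d, d = Nat.gcd a b := ⟨_, rfl⟩
    have hda : d ∣ a := hd ▸ Nat.gcd_dvd_left a b
    have hdb : d ∣ b := hd ▸ Nat.gcd_dvd_right a b
    have hdX : d ∣ X := hda.trans h1'
    have hdc : d ∣ c := by
      have e : X = (g * (a * b + b * c + c * a) + (a + b)) + c := by rw [hX]; ring
      rw [e] at hdX
      refine (Nat.dvd_add_right ?_).1 hdX
      refine dvd_add (Dvd.dvd.mul_left (dvd_add (dvd_add ?_ ?_) ?_) _) (dvd_add hda hdb)
      · exact Dvd.dvd.mul_right hda _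
      · exact Dvd.dvd.mul_right hdb _
      · exact Dvd.dvd.mul_left hda _
    have h4 : d ∣ Nat.gcd a c := Nat.dvd_gcd hda hdc
    rw [hac] at h4
    show Nat.gcd a b = 1
    rw [← hd]
    exact Nat.dvd_one.1 h4
  have hbc : Nat.Coprime b c := by
    obtain ⟨d, hd⟩ : ∃ d, d = Nat.gcd b c := ⟨_, rfl⟩
    have hdb : d ∣ b := hd ▸ Nat.gcd_dvd_left b c
    have hdc : d ∣ c := hd ▸ Nat.gcd_dvd_right b c
    have hdX : d ∣ X := hdb.trans h2'
    have hda : d ∣ a := by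
      have e : X = (g * (a * b + b * c + c * a) + (b + c)) + a := by rw [hX]; ring
      rw [e] at hdX
      refine (Nat.dvd_add_right ?_).1 hdX
      refine dvd_add (Dvd.dvd.mul_left (dvd_add (dvd_add ?_ ?_) ?_) _) (dvd_add hdb hdc)
      · exact Dvd.dvd.mul_left hdb _
      · exact Dvd.dvd.mul_right hdb _
      · exact Dvd.dvd.mul_right hdc _
    have h4 : d ∣ Nat.gcd a c := Nat.dvd_gcd hda hdc
    rw [hac] at h4
    show Nat.gcd b c = 1
    rw [← hd]
    exact Nat.dvd_one.1 h4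
  have hdvd : a * b * c ∣ X := by
    refine Nat.Coprime.mul_dvd_of_dvd_of_dvd (Nat.Coprime.mul_left hac hbc) ?_ h3'
    exact Nat.Coprime.mul_dvd_of_dvd_of_dvd hab h1' h2'
  have hXpos : 0 < X := by rw [hX]; positivity
  have hle : a * b * c ≤ X := Nat.le_of_dvd hXpos hdvd
  have habc : 0 < a * b * c := by positivity
  obtain ⟨m, hma, hmb, hmc, hm⟩ : ∃ m, m ≤ a ∧ m ≤ b ∧ m ≤ c ∧ M ≤ g * m + 1 := by
    rcases le_total a b with h | h
    · rcases le_total a c with h' | h'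
      · exact ⟨a, le_rfl, h, h', hpa⟩
      · exact ⟨c, h', h'.trans h, le_rfl, hpc⟩
    · rcases le_total b c with h' | h'
      · exact ⟨b, h, le_rfl, h', hpb⟩
      · exact ⟨c, h'.trans h, h', le_rfl, hpc⟩
  have hmX : m * X ≤ 3 * (g + 1) * (a * b * c) := by
    have e1 : m * (a * b) ≤ a * b * c := by
      rw [mul_comm m]; exact Nat.mul_le_mul_left _ hmc
    have e2 : m * (b * c) ≤ a * b * c := by
      rw [mul_assoc a]; exact Nat.mul_le_mul_right _ hma
    have e3 : m * (c * a) ≤ a * b * c := by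
      have : a * b * c = b * (c * a) := by ring
      rw [this]; exact Nat.mul_le_mul_right _ hmb
    have e4 : m * a ≤ a * b * c := by
      have h4 : m * a ≤ b * a := Nat.mul_le_mul_right _ hmb
      have h5 : b * a * 1 ≤ b * a * c := Nat.mul_le_mul_left _ hc
      have h6 : a * b * c = b * a * c := by ring
      omega
    have e5 : m * b ≤ a * b * c := by
      have h4 : m * b ≤ a * b := Nat.mul_le_mul_right _ hma
      have h5 : a * b * 1 ≤ a * b * c := Nat.mul_le_mul_left _ hc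
      omega
    have e6 : m * c ≤ a * b * c := by
      have h4 : m * c ≤ a * c := Nat.mul_le_mul_right _ hma
      have h5 : a * c * 1 ≤ a * c * b := Nat.mul_le_mul_left _ hb
      have h6 : a * b * c = a * c * b := by ring
      omega
    have e7 : m * X = g * (m * (a * b) + m * (b * c) + m * (c * a)) + (m * a + m * b + m * c) := by
      rw [hX]; ring
    have e8 : g * (m * (a * b) + m * (b * c) + m * (c * a)) ≤ g * (3 * (a * b * c)) :=
      Nat.mul_le_mul_left _ (by omega)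
    have e9 : 3 * (g + 1) * (a * b * c) = g * (3 * (a * b * c)) + 3 * (a * b * c) := by ring
    omega
  have hm3 : m ≤ 3 * (g + 1) := by
    have h4 : m * (a * b * c) ≤ m * X := Nat.mul_le_mul_left _ hle
    exact Nat.le_of_mul_le_mul_right (h4.trans hmX) habc
  have hg2 : M ≤ 6 * g ^ 2 + 1 := by
    have h4 : g * m ≤ g * (6 * g) := Nat.mul_le_mul_left _ (by omega)
    have h5 : g * (6 * g) = 6 * g ^ 2 := by ring
    omega
  by_contra hcon
  push Not at hcon
  have hs : M < (Nat.sqrt M + 1) ^ 2 := Nat.lt_succ_sqrt' M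
  have ha2 : 36 * M < a ^ 2 := by nlinarith
  have hga : (g * a) ^ 2 < 4 * M ^ 2 := by nlinarith
  have h6 : g ^ 2 * (36 * M) ≤ g ^ 2 * a ^ 2 := Nat.mul_le_mul_left _ ha2.le
  have h7 : (g * a) ^ 2 = g ^ 2 * a ^ 2 := by ring
  nlinarith

theorem split {M r n : ℕ} (hr : r.Prime) (h : InBox M r 3 n) : ∃ p q : ℕ, p.Prime ∧ q.Prime ∧
    n = r * (p * q) ∧ M ≤ p ∧ p < 2 * M ∧ M ≤ q ∧ q < 2 * M := by
  obtain ⟨⟨h1, -, hsq, -⟩, hrn, hcard, hM⟩ := h
  have hn0 : n ≠ 0 := by omega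
  have hrm : r ∈ n.primeFactors := Nat.mem_primeFactors.2 ⟨hr, hrn, hn0⟩
  have hc : (n.primeFactors.erase r).card = 2 := by
    rw [Finset.card_erase_of_mem hrm, hcard]
  obtain ⟨p, q, hpq, he⟩ := Finset.card_eq_two.1 hc
  have hp : p ∈ n.primeFactors := Finset.mem_of_mem_erase (he ▸ Finset.mem_insert_self p {q})
  have hq : q ∈ n.primeFactors := Finset.mem_of_mem_erase
    (he ▸ Finset.mem_insert_of_mem (Finset.mem_singleton_self q))
  have hprod := Nat.prod_primeFactors_of_squarefree hsq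
  rw [← Finset.mul_prod_erase _ _ hrm, he, Finset.prod_pair hpq] at hprod
  have hp' := Nat.mem_primeFactors.1 hp
  have hq' := Nat.mem_primeFactors.1 hq
  exact ⟨p, q, hp'.1, hq'.1, hprod.symm, (hM p hp'.1 hp'.2.1).1, (hM p hp'.1 hp'.2.1).2,
    (hM q hq'.1 hq'.2.1).1, (hM q hq'.1 hq'.2.1).2⟩

theorem find {M r n : ℕ} (hM4 : 4 ≤ M) (hr : r.Prime) (hMr : M ≤ r) (h : InBox M r 3 n) :
    ∃ g a t : ℕ, g ∣ r - 1 ∧ 1 ≤ a ∧ a ≤ 6 * (Nat.sqrt M + 1) ∧ g * a + 1 < 2 * M ∧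
      t ∣ (g * a + 1) * r - 1 ∧ n = r * ((g * a + 1) * (t + 1)) := by
  obtain ⟨p, q, hp, hq, hn, hp1, hp2, hq1, hq2⟩ := split hr h
  obtain ⟨⟨h1, -, -, hk⟩, -, -, -⟩ := h
  have hkp : p - 1 ∣ n - 1 := hk p hp ⟨r * q, by rw [hn]; ring⟩
  have hkq : q - 1 ∣ n - 1 := hk q hq ⟨r * p, by rw [hn]; ring⟩
  have hkr : r - 1 ∣ n - 1 := hk r hr ⟨p * q, hn⟩
  obtain ⟨g, hg⟩ : ∃ g, g = Nat.gcd (p - 1) (r - 1) := ⟨_, rfl⟩
  have hgp : g ∣ p - 1 := hg ▸ Nat.gcd_dvd_left _ _
  have hgr : g ∣ r - 1 := hg ▸ Nat.gcd_dvd_right _ _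
  have hg0 : 0 < g := by
    rw [hg]
    exact Nat.gcd_pos_of_pos_left _ (by omega)
  obtain ⟨a, ha⟩ := hgp
  obtain ⟨c, hc⟩ := hgr
  have hpe : p = g * a + 1 := by omega
  have hre : r = g * c + 1 := by omega
  have hgq : g ∣ q - 1 := by
    have h2 : g ∣ n - 1 := (Dvd.intro a ha.symm).trans hkp
    have h3 : n - 1 = g * ((a + c + g * (a * c)) * q) + (q - 1) := by
      have h4 : n = g * ((a + c + g * (a * c)) * q) + q := by
        rw [hn, hpe, hre]; ring
      omega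
    rw [h3] at h2
    exact (Nat.dvd_add_right (Dvd.intro _ rfl)).1 h2
  obtain ⟨b, hb⟩ := hgq
  have hqe : q = g * b + 1 := by omega
  have ha0 : 0 < a := by
    rcases Nat.eq_zero_or_pos a with h0 | h0
    · rw [h0, mul_zero] at ha; omega
    · exact h0
  have hb0 : 0 < b := by
    rcases Nat.eq_zero_or_pos b with h0 | h0
    · rw [h0, mul_zero] at hb; omega
    · exact h0
  have hc0 : 0 < c := by
    rcases Nat.eq_zero_or_pos c with h0 | h0
    · rw [h0, mul_zero] at hc; omega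
    · exact h0
  have hac : Nat.Coprime a c := by
    rw [ha, hc, Nat.gcd_mul_left] at hg
    show Nat.gcd a c = 1
    have : g * Nat.gcd a c = g * 1 := by omega
    exact Nat.eq_of_mul_eq_mul_left hg0 this
  have hne : n = (g * a + 1) * (g * b + 1) * (g * c + 1) := by
    rw [hn, hpe, hqe]
    nth_rewrite 1 [hre]
    ring
  refine ⟨g, a, q - 1, ⟨c, hc⟩, ha0, ?_, by omega, ?_, ?_⟩
  · refine core hM4 hg0 ha0 hb0 hc0 hac ?_ ?_ ?_ (by omega) (by omega) (by omega) (by omega)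
    · rw [← hne, ← ha]; exact hkp
    · rw [← hne, ← hb]; exact hkq
    · rw [← hne, ← hc]; exact hkr
  · have h2 : n - 1 = (q - 1) * (p * r) + ((g * a + 1) * r - 1) := by
      have h4 : n = (q - 1) * (p * r) + (g * a + 1) * r := by
        have h5 : q = (q - 1) + 1 := by omega
        rw [hn, ← hpe]
        nth_rewrite 1 [h5]
        ring
      have h6 : 0 < (g * a + 1) * r := Nat.mul_pos (by omega) hr.pos
      omega
    rw [h2] at hkq
    exact (Nat.dvd_add_right (Dvd.intro _ rfl)).1 hkq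
  · rw [hn, ← hpe]
    have h5 : q - 1 + 1 = q := by omega
    rw [h5]

theorem deg3 : DEG3 := by
  intro M T r hM4 hT hr hMr hr2 S hS
  obtain ⟨B, hB⟩ : ∃ B : ℕ × ℕ → Finset ℕ, B = fun x : ℕ × ℕ => if x.1 * x.2 + 1 < 2 * M then
      ((x.1 * x.2 + 1) * r - 1).divisors.image (fun t => r * ((x.1 * x.2 + 1) * (t + 1)))
      else ∅ := ⟨_, rfl⟩
  obtain ⟨I, hI⟩ : ∃ I : Finset (ℕ × ℕ), I =
      (r - 1).divisors ×ˢ Finset.Icc 1 (6 * (Nat.sqrt M + 1)) := ⟨_, rfl⟩
  have hsub : S ⊆ I.biUnion B := by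
    intro n hn
    obtain ⟨g, a, t, h1, h2, h3, h4, h5, h6⟩ := find hM4 hr hMr (hS n hn)
    rw [Finset.mem_biUnion]
    refine ⟨(g, a), ?_, ?_⟩
    · rw [hI, Finset.mem_product, Nat.mem_divisors, Finset.mem_Icc]
      exact ⟨⟨h1, by omega⟩, h2, h3⟩
    · rw [hB]
      simp only [h4, if_true]
      rw [Finset.mem_image]
      refine ⟨t, ?_, h6.symm⟩
      rw [Nat.mem_divisors]
      refine ⟨h5, ?_⟩
      have h7 : 1 * r ≤ (g * a + 1) * r := Nat.mul_le_mul_right _ (by omega)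
      omega
  have hcard : ∀ x ∈ I, (B x).card ≤ T := by
    rintro ⟨g, a⟩ hx
    rw [hB]
    simp only
    split_ifs with h4
    · refine Finset.card_image_le.trans (hT _ ?_ ?_)
      · have h7 : 1 * r ≤ (g * a + 1) * r := Nat.mul_le_mul_right _ (by omega)
        omega
      · have h7 : (g * a + 1) * r ≤ (2 * M) * (2 * M) := Nat.mul_le_mul h4.le hr2.le
        have h8 : (2 * M) * (2 * M) = 4 * M ^ 2 := by ring
        omega
    · simp
  have hIc : I.card ≤ T * (6 * (Nat.sqrt M + 1)) := by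
    rw [hI, Finset.card_product, Nat.card_Icc]
    refine Nat.mul_le_mul (hT _ (by omega) ?_) (by omega)
    have h9 : 2 * M ≤ 4 * M ^ 2 := by nlinarith
    omega
  calc S.card ≤ (I.biUnion B).card := Finset.card_le_card hsub
    _ ≤ I.card * T := Finset.card_biUnion_le_card_mul _ _ _ hcard
    _ ≤ T * (6 * (Nat.sqrt M + 1)) * T := Nat.mul_le_mul_right _ hIc
    _ = 6 * T ^ 2 * (Nat.sqrt M + 1) := by ring

end Pool.Agent.W2helper60.RW
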